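import Pool.Agent.Helper77.BT.Open

/-!
# Project BERTINI: the bad set is thin; points of the projective curve
-/

universe u v w

namespace Pool.Agent.BT

open MvPolynomial Pool.Agent.PL

theorem exists_point {K : Type v} [Field K] {ι : Type} {m : ℕ} {w : Fin m → K} {j : Fin m}
    (hj : w j ≠ 0) (v : ι → K) : ∃ a₀ : ι × Fin m → K, ∀ i, ∑ e, a₀ (i, e) * w e = v i := by
  classical
  refine ⟨fun i => if i.2 = j then v i.1 / w j else 0, fun i => ?_⟩
  rw [Finset.sum_eq_single j]
  · simp only [if_true]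
    exact div_mul_cancel₀ _ hj
  · intro e _ he
    simp only [if_neg he, zero_mul]
  · intro hh
    exact absurd (Finset.mem_univ _) hh

theorem exists_point' {K : Type v} [Field K] {n d t : ℕ} {ds : Fin t → ℕ} {m : ℕ} {w : Fin m → K}
    {j : Fin m} (hj : w j ≠ 0) (f0 : MonV n d → K) (g0 : ∀ s, MonV n (ds s) → K) :
    ∃ a₀ : IxV n d ds × Fin m → K, (∀ q, ∑ e, a₀ (Sum.inl q, e) * w e = f0 q) ∧
      ∀ s q, ∑ e, a₀ (Sum.inr ⟨s, q⟩, e) * w e = g0 s q := by
  obtain ⟨a₀, ha₀⟩ := exists_point hj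
    (Sum.elim f0 fun s : (Σ s : Fin t, MonV n (ds s)) => g0 s.1 s.2)
  exact ⟨a₀, fun q => ha₀ (Sum.inl q), fun s q => ha₀ (Sum.inr ⟨s, q⟩)⟩

theorem relS_map {R : Type u} {R' : Type v} (φ : R → R') {n t : ℕ} {ds : Fin t → ℕ} {U : Type}
    {e : U → ℕ} (g : ∀ s, MonV n (ds s) → R) (h : ∀ u, MonV n (e u) → R) :
    (fun u q => φ (relS g h u q)) = relS (fun s q => φ (g s q)) (fun u q => φ (h u q)) := by
  funext u
  rcases u with s | u <;> rfl

/-- the generic main relation -/
noncomputable def genF {K : Type v} [Field K] {n d t : ℕ} {ds : Fin t → ℕ} {m : ℕ} (w : Fin m → K)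
    (q : MonV n d) : MvPolynomial (IxV n d ds × Fin m) K :=
  ∑ e, X (Sum.inl q, e) * C (w e)

/-- the generic other relations -/
noncomputable def genR {K : Type v} [Field K] {n d t : ℕ} {ds : Fin t → ℕ} {m : ℕ} (w : Fin m → K)
    (s : Fin t) (q : MonV n (ds s)) : MvPolynomial (IxV n d ds × Fin m) K :=
  ∑ e, X (Sum.inr ⟨s, q⟩, e) * C (w e)

theorem eval_genF {K : Type v} [Field K] {n d t : ℕ} {ds : Fin t → ℕ} {m : ℕ} (w : Fin m → K)
    (a : IxV n d ds × Fin m → K) (q : MonV n d) :
    eval a (genF w q) = ∑ e, a (Sum.inl q, e) * w e := by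
  unfold genF
  simp only [map_sum, map_mul, eval_X, eval_C]

theorem eval_genR {K : Type v} [Field K] {n d t : ℕ} {ds : Fin t → ℕ} {m : ℕ} (w : Fin m → K)
    (a : IxV n d ds × Fin m → K) (s : Fin t) (q : MonV n (ds s)) :
    eval a (genR w s q) = ∑ e, a (Sum.inr ⟨s, q⟩, e) * w e := by
  unfold genR
  simp only [map_sum, map_mul, eval_X, eval_C]

/-- **THINFIN.**  Outside a thin set the projective curve has no point on `x = z = 0`. -/
theorem thin_finG {F : Type u} {K : Type v} [Field F] [Field K] [Algebra F K] {N d t m : ℕ}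
    {ds : Fin t → ℕ} {U : Type} [Fintype U] {e : U → ℕ} {h : ∀ u, MonV (N + 2) (e u) → K}
    {g0 : ∀ s, MonV (N + 2) (ds s) → K} {c : ℕ} (hNoe : Noe (relS g0 h) c) {w : Fin m → K}
    {j : Fin m} (hj : w j ≠ 0) :
    ∃ M, 1 ≤ M ∧ UL.IsThin {a : IxV (N + 2) d ds × Fin m → F | ¬ FinG
      (fun q => ∑ e, algebraMap F K (a (Sum.inl q, e)) * w e)
      (relS (fun s q => ∑ e, algebraMap F K (a (Sum.inr ⟨s, q⟩, e)) * w e) h) M} := by
  classical
  refine ⟨d + c + 1, Nat.le_add_left _ _, ?_⟩
  obtain ⟨a₀, ha₁, ha₂⟩ := exists_point' hj (fun q : MonV (N + 2) d => coeff q.1 (X 1 ^ d)) g0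
  have h0 : FinG (fun q : MonV (N + 2) d => eval a₀ (genF w q))
      (fun u q => eval a₀ (relS (genR w) (fun u q => C (h u q)) u q)) (d + c + 1) := by
    rw [relS_map (fun P => eval a₀ P)]
    have h1 : (fun (s : Fin t) (q : MonV (N + 2) (ds s)) => eval a₀ (genR w s q)) = g0 := by
      funext s q
      rw [eval_genR, ha₂]
    have h3 : (fun u q => eval a₀ (C (h u q))) = h := by
      funext u q
      rw [eval_C]
    rw [h1, h3]
    refine finG_special hNoe ?_ (Nat.le_succ _) (Nat.le_add_left _ _)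
    have h2 : (fun q : MonV (N + 2) d => eval a₀ (genF w q)) =
        fun q : MonV (N + 2) d => coeff q.1 (X 1 ^ d) := by
      funext q
      rw [eval_genF, ha₁]
    rw [h2]
    exact pol_coeff (totalDegree_X_pow _ _).le
  obtain ⟨Ψ, hΨ, hΨa⟩ := exists_pol_finG (F := F) (Nat.le_add_left 1 (d + c)) h0
  refine UL.IsThin.of_zeros hΨ fun a ha => ?_
  by_contra hcon
  apply ha
  have h1 := hΨa a hcon
  rw [relS_map (fun P => eval (fun i => algebraMap F K (a i)) P)] at h1
  simp only [eval_genF, eval_genR, eval_C] at h1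
  exact h1

section pts

variable {K : Type v} [Field K] {n : ℕ}

theorem hv_add (P : Fin (n + 1) → K) {a b : ℕ} {s q : Fin n →₀ ℕ} (hs : s.degree ≤ a)
    (hq : q.degree ≤ b) : hv P (a + b) (s + q) = hv P a s * hv P b q := by
  unfold hv
  have h1 : (s + q).degree = s.degree + q.degree := map_add _ _ _
  have h2 : a + b - (s + q).degree = (a - s.degree) + (b - q.degree) := by omega
  rw [h2, pow_add]
  simp only [Finsupp.add_apply, pow_add, Finset.prod_mul_distrib]
  ring

theorem hv_zero (P : Fin (n + 1) → K) (a : ℕ) : hv P a 0 = P 0 ^ a := by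
  unfold hv
  simp

theorem hv_single (P : Fin (n + 1) → K) (a : ℕ) (v : Fin n) :
    hv P a (Finsupp.single v a) = P v.succ ^ a := by
  classical
  unfold hv
  rw [Finsupp.degree_single, Nat.sub_self, pow_zero, one_mul, Finset.prod_eq_single v]
  · rw [Finsupp.single_eq_same]
  · intro v' _ hv'
    rw [Finsupp.single_eq_of_ne hv', pow_zero]
  · intro h
    exact absurd (Finset.mem_univ _) h

theorem hv_smul (P : Fin (n + 1) → K) (c : K) {a : ℕ} {s : Fin n →₀ ℕ} (hs : s.degree ≤ a) :
    hv (fun i => c * P i) a s = c ^ a * hv P a s := by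
  unfold hv
  simp only [mul_pow, Finset.prod_mul_distrib, Finset.prod_pow_eq_pow_sum]
  have h1 : c ^ a = c ^ (a - s.degree) * c ^ (∑ i, s i) := by
    rw [← pow_add, ← Finsupp.degree_eq_sum, Nat.sub_add_cancel hs]
  rw [h1]
  ring

variable {k : Type u} [Field k] [Algebra k K]

/-- the values of the monomials of degree `M` -/
theorem hv_of_finG {N d : ℕ} {U : Type} [Fintype U] {e : U → ℕ} {f : MonV (N + 2) d → k}
    {rel : ∀ u, MonV (N + 2) (e u) → k} {M : ℕ} (hM : 1 ≤ M) (h : FinG f rel M)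
    {P : Fin (N + 3) → K} (hf : aeval P (formV f) = 0) (hrel : ∀ u, aeval P (formV (rel u)) = 0)
    (q : MonV (N + 2) M) : ∃ A B : MonV (N + 2) (M - 1) → k,
      hv P M q.1 = ∑ s, algebraMap k K (A s) * (P 1 * hv P (M - 1) s.1) +
        ∑ s, algebraMap k K (B s) * (P 0 * hv P (M - 1) s.1) := by
  classical
  let Λ : MvPolynomial (Fin (N + 2)) k →ₗ[k] K := (basisMonomials (Fin (N + 2)) k).constr k (hv P M)
  have hΛ1 : ∀ s, Λ (monomial s 1) = hv P M s := by
    intro s
    have h1 := (basisMonomials (Fin (N + 2)) k).constr_basis k (hv P M) s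
    rw [coe_basisMonomials] at h1
    exact h1
  have hΛ : ∀ s c, Λ (monomial s c) = algebraMap k K c * hv P M s := by
    intro s c
    have h1 : monomial s c = c • monomial s (1 : k) := by rw [smul_monomial, smul_eq_mul, mul_one]
    rw [h1, map_smul, hΛ1, Algebra.smul_def]
  have hΛp : ∀ (a : ℕ) (g : MonV (N + 2) a → k) (s : Fin (N + 2) →₀ ℕ), s.degree + a ≤ M →
      Λ (monomial s 1 * pol g) = hv P (M - a) s * aeval P (formV g) := by
    intro a g s hs
    rw [aeval_formV, pol, Finset.mul_sum, map_sum, Finset.mul_sum]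
    refine Finset.sum_congr rfl fun q _ => ?_
    rw [monomial_mul, one_mul, hΛ]
    have h1 : hv P M (s + q.1) = hv P (M - a) s * hv P a q.1 := by
      have h2 := hv_add P (a := M - a) (b := a) (s := s) (q := q.1) (by omega) q.2
      rwa [Nat.sub_add_cancel (by omega)] at h2
    rw [h1]
    ring
  obtain ⟨c, hc⟩ := h.exists_coords q
  refine ⟨fun s => c (Sum.inl (Sum.inl s)), fun s => c (Sum.inl (Sum.inr s)), ?_⟩
  have h1 := congrArg Λ hc
  rw [hΛ1, map_sum, Fintype.sum_sum_type, Fintype.sum_sum_type, Fintype.sum_sum_type] at h1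
  have hC : ∀ (c : k) (Q : MvPolynomial (Fin (N + 2)) k), Λ (C c * Q) = algebraMap k K c * Λ Q := by
    intro c Q
    rw [C_mul', map_smul, Algebra.smul_def]
  have h2 : ∑ x, Λ (C (c (Sum.inr (Sum.inl x))) * colG f rel M (Sum.inr (Sum.inl x))) = 0 := by
    refine Finset.sum_eq_zero fun s _ => ?_
    rw [hC]
    change algebraMap k K _ * Λ (monomial s.1.1 1 * pol f) = 0
    rw [hΛp d f s.1.1 s.2, hf, mul_zero, mul_zero]
  have h3 : ∑ x, Λ (C (c (Sum.inr (Sum.inr x))) * colG f rel M (Sum.inr (Sum.inr x))) = 0 := by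
    refine Finset.sum_eq_zero fun s _ => ?_
    rw [hC]
    change algebraMap k K _ * Λ (monomial s.2.1.1 1 * pol (rel s.1)) = 0
    rw [hΛp _ (rel s.1) s.2.1.1 s.2.2, hrel, mul_zero, mul_zero]
  rw [h1, h2, h3, add_zero, add_zero]
  congr 1
  · refine Finset.sum_congr rfl fun s _ => ?_
    rw [hC]
    change algebraMap k K _ * Λ (monomial s.1 1 * X 0) = _
    have h4 : (X 0 : MvPolynomial (Fin (N + 2)) k) = monomial (Finsupp.single 0 1) 1 := rfl
    have h5 := hv_add P (a := M - 1) (b := 1) (s := s.1) (q := Finsupp.single 0 1) s.2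
      (Finsupp.degree_single _ _).le
    rw [Nat.sub_add_cancel hM, hv_single, pow_one] at h5
    rw [h4, monomial_mul, one_mul, hΛ1, h5]
    rw [mul_comm (P 1)]
    rfl
  · refine Finset.sum_congr rfl fun s _ => ?_
    rw [hC]
    change algebraMap k K _ * Λ (monomial s.1 1) = _
    have h5 := hv_add P (a := M - 1) (b := 1) (s := s.1) (q := 0) s.2 (by simp)
    rw [Nat.sub_add_cancel hM, hv_zero, pow_one, add_zero] at h5
    rw [hΛ1, h5, mul_comm (P 0)]

/-- algebraic coordinates -/
theorem isAlgebraic_of_hv {M : ℕ} (hM : 1 ≤ M) {P : Fin (n + 2) → K}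
    (h : ∀ q : MonV (n + 1) M, ∃ A B : MonV (n + 1) (M - 1) → k,
      hv P M q.1 = ∑ s, algebraMap k K (A s) * (P 1 * hv P (M - 1) s.1) +
        ∑ s, algebraMap k K (B s) * (P 0 * hv P (M - 1) s.1))
    (h0 : IsAlgebraic k (P 0)) (h1 : IsAlgebraic k (P 1)) {v₀ : Fin (n + 2)} (hv₀ : P v₀ ≠ 0)
    (v : Fin (n + 2)) : IsAlgebraic k (P v) := by
  classical
  let L := algebraicClosure k K
  let W : Submodule L K := Submodule.span L (Set.range fun s : MonV (n + 1) (M - 1) => hv P (M - 1) s.1)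
  have hWfg : W.FG := Submodule.fg_span (Set.finite_range _)
  have hmem : ∀ s : Fin (n + 1) →₀ ℕ, s.degree ≤ M - 1 → hv P (M - 1) s ∈ W := fun s hs =>
    Submodule.subset_span ⟨⟨s, hs⟩, rfl⟩
  have hsm : ∀ (x y : K), IsAlgebraic k x → y ∈ W → x * y ∈ W := by
    intro x y hx hy
    exact W.smul_mem (⟨x, mem_algebraicClosure_iff.2 hx⟩ : L) hy
  have hW0 : W ≠ ⊥ := by
    intro hb
    have h2 : ∀ s : Fin (n + 1) →₀ ℕ, s.degree ≤ M - 1 → hv P (M - 1) s = 0 := by
      intro s hs
      have := hmem s hs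
      rwa [hb, Submodule.mem_bot] at this
    rcases Fin.eq_zero_or_eq_succ v₀ with h3 | ⟨v', h3⟩
    · have := h2 0 (by simp)
      rw [hv_zero, ← h3] at this
      exact hv₀ (eq_zero_of_pow_eq_zero this)
    · have := h2 (Finsupp.single v' (M - 1)) (Finsupp.degree_single _ _).le
      rw [hv_single, ← h3] at this
      exact hv₀ (eq_zero_of_pow_eq_zero this)
  have hM' : ∀ s : Fin (n + 1) →₀ ℕ, s.degree ≤ M → hv P M s ∈ W := by
    intro s hs
    obtain ⟨A, B, hAB⟩ := h ⟨s, hs⟩
    rw [hAB]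
    refine W.add_mem (W.sum_mem fun q _ => ?_) (W.sum_mem fun q _ => ?_)
    · exact hsm _ _ (isAlgebraic_algebraMap _) (hsm _ _ h1 (hmem q.1 q.2))
    · exact hsm _ _ (isAlgebraic_algebraMap _) (hsm _ _ h0 (hmem q.1 q.2))
  have hmul : ∀ s : MonV (n + 1) (M - 1), P v * hv P (M - 1) s.1 ∈ W := by
    intro s
    rcases Fin.eq_zero_or_eq_succ v with h3 | ⟨v', h3⟩
    · have h5 := hv_add P (a := M - 1) (b := 1) (s := s.1) (q := 0) s.2 (by simp)
      rw [Nat.sub_add_cancel hM, hv_zero, pow_one, add_zero] at h5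
      rw [h3, mul_comm, ← h5]
      exact hM' _ (s.2.trans (Nat.sub_le _ _))
    · have h5 := hv_add P (a := M - 1) (b := 1) (s := s.1) (q := Finsupp.single v' 1) s.2
        (Finsupp.degree_single _ _).le
      rw [Nat.sub_add_cancel hM, hv_single, pow_one] at h5
      rw [h3, mul_comm, ← h5]
      apply hM'
      rw [map_add, Finsupp.degree_single]
      have := s.2
      omega
  have hint : IsIntegral L (P v) := by
    refine isIntegral_of_smul_mem_submodule W hW0 hWfg (P v) fun y hy => ?_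
    rw [smul_eq_mul]
    induction hy using Submodule.span_induction with
    | mem y hy =>
      obtain ⟨s, rfl⟩ := hy
      exact hmul s
    | zero =>
      rw [mul_zero]
      exact W.zero_mem
    | add y z _ _ hy hz =>
      rw [mul_add]
      exact W.add_mem hy hz
    | smul c y _ hy =>
      rw [Algebra.smul_def, mul_left_comm, ← Algebra.smul_def]
      exact W.smul_mem c hy
  exact (isIntegral_trans (R := k) (A := L) _ hint).isAlgebraic

/-- **PTS.**  A nonconstant point of the projective curve is not at infinity, and its first coordinate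
is transcendental. -/
theorem pts {N d : ℕ} {U : Type} [Fintype U] {e : U → ℕ} {f : MonV (N + 2) d → k}
    {rel : ∀ u, MonV (N + 2) (e u) → k} {M : ℕ} (hM : 1 ≤ M) (h : FinG f rel M)
    {P : Fin (N + 3) → K} (hf : aeval P (formV f) = 0) (hrel : ∀ u, aeval P (formV (rel u)) = 0)
    {i j : Fin (N + 3)} (hij : Transcendental k (P i / P j)) :
    P 0 ≠ 0 ∧ Transcendental k (P 1 / P 0) := by
  classical
  have hj : P j ≠ 0 := by
    intro h0
    rw [h0, div_zero] at hij
    exact hij isAlgebraic_zero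
  -- scaled points
  have hsc : ∀ l : K, (∀ q : MonV (N + 2) M, ∃ A B : MonV (N + 2) (M - 1) → k,
      hv (fun i => l * P i) M q.1 =
        ∑ s, algebraMap k K (A s) * ((l * P 1) * hv (fun i => l * P i) (M - 1) s.1) +
        ∑ s, algebraMap k K (B s) * ((l * P 0) * hv (fun i => l * P i) (M - 1) s.1)) := by
    intro l
    refine hv_of_finG hM h ?_ ?_
    · rw [aeval_formV] at hf ⊢
      have h1 : ∀ s : MonV (N + 2) d, algebraMap k K (f s) * hv (fun i => l * P i) d s.1 =
          l ^ d * (algebraMap k K (f s) * hv P d s.1) := by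
        intro s
        rw [hv_smul P l s.2]
        ring
      rw [Finset.sum_congr rfl fun s _ => h1 s, ← Finset.mul_sum, hf, mul_zero]
    · intro u
      have hu := hrel u
      rw [aeval_formV] at hu ⊢
      have h1 : ∀ s : MonV (N + 2) (e u), algebraMap k K (rel u s) * hv (fun i => l * P i) (e u) s.1 =
          l ^ (e u) * (algebraMap k K (rel u s) * hv P (e u) s.1) := by
        intro s
        rw [hv_smul P l s.2]
        ring
      rw [Finset.sum_congr rfl fun s _ => h1 s, ← Finset.mul_sum, hu, mul_zero]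
  have hfin : ∀ l : K, l ≠ 0 → IsAlgebraic k (l * P 0) → IsAlgebraic k (l * P 1) → False := by
    intro l hl h0 h1
    have h2 := isAlgebraic_of_hv (n := N + 1) hM (P := fun i => l * P i) (hsc l) h0 h1
      (v₀ := j) (mul_ne_zero hl hj)
    apply hij
    have h3 : P i / P j = (l * P i) * (l * P j)⁻¹ := by
      rw [mul_inv, div_eq_mul_inv]
      field_simp
    rw [h3]
    exact (h2 i).mul (h2 j).inv
  have h01 : P 0 ≠ 0 := by
    intro h0
    by_cases h1 : P 1 = 0
    · refine hfin 1 one_ne_zero ?_ ?_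
      · rw [h0, mul_zero]
        exact isAlgebraic_zero
      · rw [h1, mul_zero]
        exact isAlgebraic_zero
    · refine hfin (P 1)⁻¹ (inv_ne_zero h1) ?_ ?_
      · rw [h0, mul_zero]
        exact isAlgebraic_zero
      · rw [inv_mul_cancel₀ h1]
        exact isAlgebraic_one
  refine ⟨h01, fun h1 => hfin (P 0)⁻¹ (inv_ne_zero h01) ?_ ?_⟩
  · rw [inv_mul_cancel₀ h01]
    exact isAlgebraic_one
  · rwa [mul_comm, ← div_eq_mul_inv]

end pts

end Pool.Agent.BT
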