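import Pool.Agent.Helper37.BT.Basic

/-!
# Project BERTINI: forms with given affine coefficient vector, graded finiteness over the line
-/

universe u v w

namespace Pool.Agent.BT

open MvPolynomial

section form

variable {R : Type u} [CommRing R] {n : ℕ}

/-- the exponent of the form of degree `D` with the affine exponent `s` -/
noncomputable def expV (D : ℕ) (s : Fin n →₀ ℕ) : Fin (n + 1) →₀ ℕ :=
  Finsupp.cons (D - s.degree) s

theorem degree_cons (a : ℕ) (s : Fin n →₀ ℕ) : (Finsupp.cons a s).degree = a + s.degree := by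
  rw [Finsupp.degree_eq_sum, Finsupp.degree_eq_sum, Fin.sum_univ_succ, Finsupp.cons_zero]
  simp only [Finsupp.cons_succ]

theorem degree_expV {D : ℕ} {s : Fin n →₀ ℕ} (hs : s.degree ≤ D) : (expV D s).degree = D := by
  unfold expV
  rw [degree_cons]
  omega

theorem expV_inj {D : ℕ} : Function.Injective (expV D : (Fin n →₀ ℕ) → _) := by
  intro s s' h
  have h1 := congrArg Finsupp.tail h
  unfold expV at h1
  rwa [Finsupp.tail_cons, Finsupp.tail_cons] at h1

theorem exists_expV {D : ℕ} {s : Fin (n + 1) →₀ ℕ} (hs : s.degree = D) :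
    ∃ q : MonV n D, expV D q.1 = s := by
  have h1 : Finsupp.cons (s 0) (Finsupp.tail s) = s := Finsupp.cons_tail s
  have h2 : s 0 + (Finsupp.tail s).degree = D := by
    rw [← degree_cons, h1, hs]
  refine ⟨⟨Finsupp.tail s, by omega⟩, ?_⟩
  have h3 : D - (Finsupp.tail s).degree = s 0 := by omega
  unfold expV
  change Finsupp.cons (D - (Finsupp.tail s).degree) (Finsupp.tail s) = s
  rw [h3, h1]

/-- the form of degree `D` in the variables `z = X 0`, `x = X 1`, … with the coefficient vector `g` -/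
noncomputable def formV {D : ℕ} (g : MonV n D → R) : MvPolynomial (Fin (n + 1)) R :=
  ∑ s, monomial (expV D s.1) (g s)

theorem formV_homog {D : ℕ} (g : MonV n D → R) : (formV g).IsHomogeneous D :=
  IsHomogeneous.sum _ _ _ fun s _ => isHomogeneous_monomial _ (degree_expV s.2)

theorem map_formV {R' : Type v} [CommRing R'] (φ : R →+* R') {D : ℕ} (g : MonV n D → R) :
    map φ (formV g) = formV fun q => φ (g q) := by
  unfold formV
  rw [map_sum]
  exact Finset.sum_congr rfl fun q _ => map_monomial _ _ _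

theorem totalDegree_monomial_le' {s : Fin n →₀ ℕ} {D : ℕ} (hs : s.degree ≤ D) (c : R) :
    (monomial s c).totalDegree ≤ D := by
  refine (totalDegree_monomial_le s c).trans ?_
  rw [Finsupp.degree_eq_sum] at hs
  rw [Finsupp.sum_fintype _ _ fun _ => rfl]
  exact hs

theorem degree_le_of_mem {P : MvPolynomial (Fin n) R} {s : Fin n →₀ ℕ} (hs : s ∈ P.support) :
    s.degree ≤ P.totalDegree := by
  have h1 := le_totalDegree hs
  rw [Finsupp.sum_fintype _ _ fun _ => rfl] at h1
  rw [Finsupp.degree_eq_sum]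
  exact h1

/-- every form is given by a coefficient vector -/
theorem formV_coeff {D : ℕ} {P : MvPolynomial (Fin (n + 1)) R} (hP : P.IsHomogeneous D) :
    formV (fun q : MonV n D => coeff (expV D q.1) P) = P := by
  classical
  ext s
  unfold formV
  rw [coeff_sum]
  simp only [coeff_monomial]
  by_cases hs : s.degree = D
  · obtain ⟨q, rfl⟩ := exists_expV hs
    rw [Finset.sum_eq_single q]
    · rw [if_pos rfl]
    · intro q' _ hq'
      rw [if_neg fun h => hq' (Subtype.ext (expV_inj h))]
    · intro h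
      exact absurd (Finset.mem_univ _) h
  · rw [hP.coeff_eq_zero hs, Finset.sum_eq_zero]
    intro q _
    rw [if_neg]
    rintro rfl
    exact hs (degree_expV q.2)

theorem coeff_formV {D : ℕ} (g : MonV n D → R) (q : MonV n D) :
    coeff (expV D q.1) (formV g) = g q := by
  classical
  unfold formV
  rw [coeff_sum]
  simp only [coeff_monomial]
  rw [Finset.sum_eq_single q]
  · rw [if_pos rfl]
  · intro q' _ hq'
    rw [if_neg fun h => hq' (Subtype.ext (expV_inj h))]
  · intro h
    exact absurd (Finset.mem_univ _) h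

/-- the value of the monomial of the form of degree `D` -/
noncomputable def hv (P : Fin (n + 1) → R) (D : ℕ) (s : Fin n →₀ ℕ) : R :=
  P 0 ^ (D - s.degree) * ∏ v, P v.succ ^ s v

theorem prod_expV (P : Fin (n + 1) → R) (D : ℕ) (s : Fin n →₀ ℕ) :
    (expV D s).prod (fun i e => P i ^ e) = hv P D s := by
  rw [Finsupp.prod_fintype _ _ (fun i => pow_zero _), Fin.prod_univ_succ]
  unfold expV hv
  simp only [Finsupp.cons_zero, Finsupp.cons_succ]

theorem eval_formV {D : ℕ} (g : MonV n D → R) (P : Fin (n + 1) → R) :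
    eval P (formV g) = ∑ s, g s * hv P D s.1 := by
  unfold formV
  rw [map_sum]
  refine Finset.sum_congr rfl fun s _ => ?_
  rw [eval_monomial, prod_expV]

theorem aeval_formV {A : Type v} [CommRing A] [Algebra R A] {D : ℕ} (g : MonV n D → R)
    (P : Fin (n + 1) → A) :
    aeval P (formV g) = ∑ s, algebraMap R A (g s) * hv P D s.1 := by
  rw [← eval_formV, ← map_formV (algebraMap R A) g, eval_map]
  rfl

theorem eval_pol {D : ℕ} (g : MonV n D → R) (x : Fin n → R) :
    eval x (pol g) = ∑ s, g s * ∏ v, x v ^ s.1 v := by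
  unfold pol
  rw [map_sum]
  refine Finset.sum_congr rfl fun s _ => ?_
  rw [eval_monomial, Finsupp.prod_fintype _ _ (fun i => pow_zero _)]

/-- the affine part of a form -/
theorem eval_cons_formV {D : ℕ} (g : MonV n D → R) (x : Fin n → R) :
    eval (Fin.cons 1 x) (formV g) = eval x (pol g) := by
  rw [eval_formV, eval_pol]
  refine Finset.sum_congr rfl fun s _ => ?_
  unfold hv
  simp only [Fin.cons_zero, Fin.cons_succ, one_pow, one_mul]

theorem aeval_cons_formV {A : Type v} [CommRing A] [Algebra R A] {D : ℕ} (g : MonV n D → R)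
    (x : Fin n → A) : aeval (Fin.cons 1 x) (formV g) = aeval x (pol g) := by
  have h1 := eval_cons_formV (fun q => algebraMap R A (g q)) x
  rw [← map_formV, ← map_pol, eval_map, eval_map] at h1
  exact h1

end form

section fin

variable {K : Type u} [Field K] {N d : ℕ} {U : Type} [Fintype U] {e : U → ℕ}

/-- `FinX` with the obvious degrees: the projective curve has no point on `x = z = 0`. -/
def FinG (f : MonV (N + 2) d → K) (rel : ∀ u, MonV (N + 2) (e u) → K) (M : ℕ) : Prop :=
  ∀ q : MonV (N + 2) M, ∃ (A B : MonV (N + 2) (M - 1) → K) (H : MvPolynomial (Fin (N + 2)) K)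
    (H' : U → MvPolynomial (Fin (N + 2)) K),
    (H ≠ 0 → H.totalDegree + d ≤ M) ∧ (∀ u, H' u ≠ 0 → (H' u).totalDegree + e u ≤ M) ∧
    pol A * X 0 + pol B + (H * pol f + ∑ u, H' u * pol (rel u)) = monomial q.1 1

theorem totalDegree_le_of {R : Type v} [CommRing R] {n a M : ℕ} {P : MvPolynomial (Fin n) R}
    (h : P ≠ 0 → P.totalDegree + a ≤ M) : P.totalDegree ≤ M := by
  by_cases hP : P = 0
  · rw [hP, totalDegree_zero]
    exact Nat.zero_le _
  · have := h hP
    omega

theorem FinG.finX {f : MonV (N + 2) d → K} {rel : ∀ u, MonV (N + 2) (e u) → K} {M : ℕ}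
    (h : FinG f rel M) : FinX f rel M := by
  intro q
  obtain ⟨A, B, H, H', hH, hH', hq⟩ := h q
  refine ⟨A, B, fun s => coeff s.1 H, fun u s => coeff s.1 (H' u), ?_⟩
  unfold comb
  rw [pol_coeff (totalDegree_le_of hH), ← hq]
  congr 2
  exact Finset.sum_congr rfl fun u _ => by rw [pol_coeff (totalDegree_le_of (hH' u))]

theorem deg_add {R : Type v} [CommRing R] {n a M : ℕ} {P Q : MvPolynomial (Fin n) R}
    (h : P ≠ 0 → P.totalDegree + a ≤ M) (h' : Q ≠ 0 → Q.totalDegree + a ≤ M) :
    P + Q ≠ 0 → (P + Q).totalDegree + a ≤ M := by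
  intro _
  by_cases hP : P = 0
  · by_cases hQ : Q = 0
    · simp_all
    · rw [hP, zero_add]
      exact h' hQ
  · by_cases hQ : Q = 0
    · rw [hQ, add_zero]
      exact h hP
    · have h1 := totalDegree_add P Q
      have h2 := h hP
      have h3 := h' hQ
      rcases max_choice P.totalDegree Q.totalDegree with h4 | h4 <;> rw [h4] at h1 <;> omega

/-- combinations with the obvious degrees -/
def GoodG (f : MonV (N + 2) d → K) (rel : ∀ u, MonV (N + 2) (e u) → K) (M : ℕ)
    (P : MvPolynomial (Fin (N + 2)) K) : Prop :=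
  ∃ (A B H : MvPolynomial (Fin (N + 2)) K) (H' : U → MvPolynomial (Fin (N + 2)) K),
    A.totalDegree ≤ M - 1 ∧ B.totalDegree ≤ M - 1 ∧
    (H ≠ 0 → H.totalDegree + d ≤ M) ∧ (∀ u, H' u ≠ 0 → (H' u).totalDegree + e u ≤ M) ∧
    A * X 0 + B + (H * pol f + ∑ u, H' u * pol (rel u)) = P

theorem GoodG.zero {f : MonV (N + 2) d → K} {rel : ∀ u, MonV (N + 2) (e u) → K} {M : ℕ} :
    GoodG f rel M 0 :=
  ⟨0, 0, 0, 0, by simp, by simp, by simp, by simp, by simp⟩

theorem GoodG.add {f : MonV (N + 2) d → K} {rel : ∀ u, MonV (N + 2) (e u) → K} {M : ℕ}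
    {P Q : MvPolynomial (Fin (N + 2)) K} (hP : GoodG f rel M P) (hQ : GoodG f rel M Q) :
    GoodG f rel M (P + Q) := by
  obtain ⟨A, B, H, H', h1, h2, h3, h4, rfl⟩ := hP
  obtain ⟨A2, B2, H2, H2', g1, g2, g3, g4, rfl⟩ := hQ
  refine ⟨A + A2, B + B2, H + H2, H' + H2', ?_, ?_, deg_add h3 g3, fun u => deg_add (h4 u) (g4 u), ?_⟩
  · exact (totalDegree_add _ _).trans (max_le h1 g1)
  · exact (totalDegree_add _ _).trans (max_le h2 g2)
  · simp only [Pi.add_apply, add_mul, Finset.sum_add_distrib]
    ring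

theorem GoodG.sum {f : MonV (N + 2) d → K} {rel : ∀ u, MonV (N + 2) (e u) → K} {M : ℕ}
    {ι : Type*} (T : Finset ι) {P : ι → MvPolynomial (Fin (N + 2)) K}
    (hP : ∀ i ∈ T, GoodG f rel M (P i)) : GoodG f rel M (∑ i ∈ T, P i) := by
  classical
  induction T using Finset.induction_on with
  | empty =>
    rw [Finset.sum_empty]
    exact GoodG.zero
  | insert a s ha ih =>
    rw [Finset.sum_insert ha]
    exact (hP a (Finset.mem_insert_self _ _)).add
      (ih fun i hi => hP i (Finset.mem_insert_of_mem hi))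

theorem GoodG.low {f : MonV (N + 2) d → K} {rel : ∀ u, MonV (N + 2) (e u) → K} {M : ℕ}
    {P : MvPolynomial (Fin (N + 2)) K} (hP : P.totalDegree ≤ M - 1) : GoodG f rel M P :=
  ⟨0, P, 0, 0, by simp, hP, by simp, by simp, by simp⟩

theorem GoodG.finG {f : MonV (N + 2) d → K} {rel : ∀ u, MonV (N + 2) (e u) → K} {M : ℕ}
    (h : ∀ q : MonV (N + 2) M, GoodG f rel M (monomial q.1 1)) : FinG f rel M := by
  intro q
  obtain ⟨A, B, H, H', h1, h2, h3, h4, h5⟩ := h q
  refine ⟨fun s => coeff s.1 A, fun s => coeff s.1 B, H, H', h3, h4, ?_⟩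
  rw [pol_coeff h1, pol_coeff h2, h5]

/-- the special curve: the main relation is `y ^ d` -/
theorem finG_special {rel : ∀ u, MonV (N + 2) (e u) → K} {c M : ℕ} (hrel : Noe rel c)
    {f : MonV (N + 2) d → K} (hf : pol f = X 1 ^ d) (hM : d + c ≤ M) (hM1 : 1 ≤ M) :
    FinG f rel M := by
  classical
  refine GoodG.finG fun q => ?_
  obtain ⟨a, b, ha, hb, hq⟩ := hrel M (monomial q.1 1) (totalDegree_monomial_le' q.2 1)
  rw [hq]
  refine GoodG.add (GoodG.sum _ fun s _ => ?_) ⟨0, 0, 0, b, by simp, by simp, by simp, hb, by simp⟩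
  by_cases hs0 : a s = 0
  · rw [hs0, map_zero, zero_mul]
    exact GoodG.zero
  have hs := ha s hs0
  rw [(a s).as_sum, map_sum, Finset.sum_mul]
  refine GoodG.sum _ fun t ht => ?_
  set c0 := coeff t (a s) with hc0
  have ht' : t 0 + t 1 + s.1.degree ≤ M := by
    have h1 := degree_le_of_mem ht
    rw [Finsupp.degree_eq_sum, Fin.sum_univ_two] at h1
    omega
  have hinc : inc N (monomial t c0) = C c0 * X 0 ^ t 0 * X 1 ^ t 1 := by
    unfold inc
    change aeval ![X 0, X 1] (monomial t c0) = _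
    rw [aeval_monomial, Finsupp.prod_fintype _ _ (fun i => pow_zero _), Fin.prod_univ_two,
      mul_assoc]
    rfl
  rw [hinc]
  -- a monomial of degree at most `D`
  have hmon : ∀ (i j D : ℕ), i + j + s.1.degree ≤ D →
      (C c0 * X 0 ^ i * X 1 ^ j * monomial s.1 1 : MvPolynomial (Fin (N + 2)) K).totalDegree ≤ D := by
    intro i j D hD
    have h1 : (monomial s.1 (1 : K) : MvPolynomial (Fin (N + 2)) K).totalDegree ≤ s.1.degree :=
      totalDegree_monomial_le' le_rfl 1
    have h2 : (C c0 * X 0 ^ i * X 1 ^ j : MvPolynomial (Fin (N + 2)) K).totalDegree ≤ i + j := by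
      refine (totalDegree_mul _ _).trans (add_le_add ((totalDegree_mul _ _).trans ?_)
        ((totalDegree_X_pow _ _).le))
      rw [totalDegree_C, zero_add]
      exact (totalDegree_X_pow _ _).le
    exact (totalDegree_mul _ _).trans (by omega)
  rcases Nat.eq_zero_or_pos (t 0) with h0 | h0
  · by_cases h1 : d ≤ t 1
    · refine ⟨0, 0, C c0 * X 0 ^ 0 * X 1 ^ (t 1 - d) * monomial s.1 1, 0, by simp, by simp, ?_,
        by simp, ?_⟩
      · intro _
        have := hmon 0 (t 1 - d) (M - d) (by omega)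
        omega
      · rw [hf, h0]
        simp only [Pi.zero_apply, zero_mul, Finset.sum_const_zero, add_zero, zero_add]
        have h2 : (X 1 : MvPolynomial (Fin (N + 2)) K) ^ t 1 = X 1 ^ (t 1 - d) * X 1 ^ d := by
          rw [← pow_add, Nat.sub_add_cancel h1]
        rw [h2]
        ring
    · refine GoodG.low (hmon _ _ _ ?_)
      have := s.2
      omega
  · refine ⟨C c0 * X 0 ^ (t 0 - 1) * X 1 ^ t 1 * monomial s.1 1, 0, 0, 0,
      hmon _ _ _ (by omega), by simp, by simp, by simp, ?_⟩
    simp only [Pi.zero_apply, zero_mul, Finset.sum_const_zero, add_zero]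
    have h2 : (X 0 : MvPolynomial (Fin (N + 2)) K) ^ t 0 = X 0 ^ (t 0 - 1) * X 0 := by
      rw [← pow_succ, Nat.sub_add_cancel h0]
    rw [h2]
    ring

end fin

end Pool.Agent.BT
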