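import Pool.Agent.Helper77.BT.Form
import Pool.Agent.Helper10.PL.Smooth
import Pool.Agent.Helper10.UL.ThinOne

/-!
# Project BERTINI: finiteness over the line holds outside a hypersurface
-/

universe u v w

namespace Pool.Agent.BT

open MvPolynomial Pool.Agent.PL

section col

/-- the indices of the columns -/
abbrev Cix (N d M : ℕ) {U : Type} (e : U → ℕ) : Type :=
  (MonV (N + 2) (M - 1) ⊕ MonV (N + 2) (M - 1)) ⊕
    ({s : MonV (N + 2) M // s.1.degree + d ≤ M} ⊕
      (Σ u : U, {s : MonV (N + 2) M // s.1.degree + e u ≤ M}))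

variable {R : Type u} [CommRing R] {N d : ℕ} {U : Type} {e : U → ℕ}

/-- the columns -/
noncomputable def colG (f : MonV (N + 2) d → R) (rel : ∀ u, MonV (N + 2) (e u) → R) (M : ℕ) :
    Cix N d M e → MvPolynomial (Fin (N + 2)) R
  | Sum.inl (Sum.inl s) => monomial s.1 1 * X 0
  | Sum.inl (Sum.inr s) => monomial s.1 1
  | Sum.inr (Sum.inl s) => monomial s.1.1 1 * pol f
  | Sum.inr (Sum.inr s) => monomial s.2.1.1 1 * pol (rel s.1)

theorem totalDegree_colG (f : MonV (N + 2) d → R) (rel : ∀ u, MonV (N + 2) (e u) → R) {M : ℕ}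
    (hM : 1 ≤ M) (i : Cix N d M e) : (colG f rel M i).totalDegree ≤ M := by
  rcases i with (s | s) | s | s
  · change (monomial s.1 1 * X 0 : MvPolynomial (Fin (N + 2)) R).totalDegree ≤ M
    refine (totalDegree_mul _ _).trans ?_
    have h1 : (monomial s.1 (1 : R)).totalDegree ≤ M - 1 := totalDegree_monomial_le' s.2 1
    have h2 : (X 0 : MvPolynomial (Fin (N + 2)) R).totalDegree ≤ 1 := by
      rcases subsingleton_or_nontrivial R with h | h
      · rw [Subsingleton.elim (X 0 : MvPolynomial (Fin (N + 2)) R) 0, totalDegree_zero]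
        exact Nat.zero_le _
      · rw [totalDegree_X]
    omega
  · exact (totalDegree_monomial_le' s.2 1).trans (Nat.sub_le _ _)
  · change (monomial s.1.1 1 * pol f).totalDegree ≤ M
    refine (totalDegree_mul _ _).trans ?_
    have h1 : (monomial s.1.1 (1 : R)).totalDegree ≤ s.1.1.degree := totalDegree_monomial_le' le_rfl 1
    have h2 := totalDegree_pol_le f
    have h3 := s.2
    omega
  · change (monomial s.2.1.1 1 * pol (rel s.1)).totalDegree ≤ M
    refine (totalDegree_mul _ _).trans ?_
    have h1 : (monomial s.2.1.1 (1 : R)).totalDegree ≤ s.2.1.1.degree :=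
      totalDegree_monomial_le' le_rfl 1
    have h2 := totalDegree_pol_le (rel s.1)
    have h3 := s.2.2
    omega

theorem map_colG {R' : Type v} [CommRing R'] (φ : R →+* R') (f : MonV (N + 2) d → R)
    (rel : ∀ u, MonV (N + 2) (e u) → R) (M : ℕ) (i : Cix N d M e) :
    map φ (colG f rel M i) = colG (fun q => φ (f q)) (fun u q => φ (rel u q)) M i := by
  rcases i with (s | s) | s | s
  · change map φ (monomial s.1 1 * X 0) = monomial s.1 1 * X 0
    rw [map_mul, map_monomial, map_X, map_one]
  · change map φ (monomial s.1 1) = monomial s.1 1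
    rw [map_monomial, map_one]
  · change map φ (monomial s.1.1 1 * pol f) = monomial s.1.1 1 * pol _
    rw [map_mul, map_monomial, map_pol, map_one]
  · change map φ (monomial s.2.1.1 1 * pol (rel s.1)) = monomial s.2.1.1 1 * pol _
    rw [map_mul, map_monomial, map_pol, map_one]

/-- polynomials of bounded degree as sums of monomials -/
theorem sum_sub {n a M : ℕ} {H : MvPolynomial (Fin n) R} (hH : H ≠ 0 → H.totalDegree + a ≤ M) :
    ∑ s : {s : MonV n M // s.1.degree + a ≤ M}, C (coeff s.1.1 H) * monomial s.1.1 1 = H := by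
  classical
  ext s
  rw [coeff_sum]
  simp only [coeff_C_mul, coeff_monomial]
  by_cases h0 : coeff s H = 0
  · rw [h0]
    apply Finset.sum_eq_zero
    intro t _
    by_cases h1 : t.1.1 = s
    · rw [h1, h0, zero_mul]
    · rw [if_neg h1, mul_zero]
  · have h1 : s ∈ H.support := mem_support_iff.2 h0
    have h2 := degree_le_of_mem h1
    have h3 := hH (by rintro rfl; exact h0 (coeff_zero _))
    rw [Finset.sum_eq_single (⟨⟨s, by omega⟩, by change s.degree + a ≤ M; omega⟩ :
      {s : MonV n M // s.1.degree + a ≤ M})]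
    · rw [if_pos rfl, mul_one]
    · intro t _ ht
      rw [if_neg, mul_zero]
      intro h
      exact ht (Subtype.ext (Subtype.ext h))
    · intro h
      exact absurd (Finset.mem_univ _) h

theorem pol_eq_sum {n D : ℕ} (g : MonV n D → R) : pol g = ∑ s, C (g s) * monomial s.1 1 := by
  unfold pol
  refine Finset.sum_congr rfl fun s _ => ?_
  rw [C_mul_monomial, mul_one]

end col

section fin

variable {K : Type u} [Field K] {N d : ℕ} {U : Type} [Fintype U] {e : U → ℕ}

theorem FinG.exists_coords {f : MonV (N + 2) d → K} {rel : ∀ u, MonV (N + 2) (e u) → K} {M : ℕ}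
    (h : FinG f rel M) (q : MonV (N + 2) M) :
    ∃ c : Cix N d M e → K, monomial q.1 1 = ∑ i, C (c i) * colG f rel M i := by
  obtain ⟨A, B, H, H', hH, hH', hq⟩ := h q
  refine ⟨Sum.elim (Sum.elim A B) (Sum.elim (fun s => coeff s.1.1 H)
    fun s => coeff s.2.1.1 (H' s.1)), ?_⟩
  rw [← hq, Fintype.sum_sum_type, Fintype.sum_sum_type, Fintype.sum_sum_type, Fintype.sum_sigma]
  congr 1
  · congr 1
    · rw [pol_eq_sum, Finset.sum_mul]
      refine Finset.sum_congr rfl fun s _ => ?_
      rw [mul_assoc]
      rfl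
    · exact pol_eq_sum B
  · congr 1
    · conv_lhs => rw [← sum_sub hH]
      rw [Finset.sum_mul]
      refine Finset.sum_congr rfl fun s _ => ?_
      rw [mul_assoc]
      rfl
    · refine Finset.sum_congr rfl fun u _ => ?_
      conv_lhs => rw [← sum_sub (hH' u)]
      rw [Finset.sum_mul]
      refine Finset.sum_congr rfl fun s _ => ?_
      rw [mul_assoc]
      rfl

theorem deg_sum {R : Type v} [CommRing R] {n a M : ℕ}
    (c : {s : MonV n M // s.1.degree + a ≤ M} → R) :
    (∑ s, C (c s) * monomial s.1.1 1 : MvPolynomial (Fin n) R) ≠ 0 →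
      (∑ s, C (c s) * monomial s.1.1 1 : MvPolynomial (Fin n) R).totalDegree + a ≤ M := by
  intro h
  have ha : a ≤ M := by
    by_contra hcon
    apply h
    apply Finset.sum_eq_zero
    intro s _
    have := s.2
    omega
  have h1 : (∑ s, C (c s) * monomial s.1.1 1 : MvPolynomial (Fin n) R).totalDegree ≤ M - a := by
    refine totalDegree_finsetSum_le fun s _ => ?_
    rw [C_mul_monomial, mul_one]
    exact totalDegree_monomial_le' (by have := s.2; omega) _
  omega

theorem finG_of_coords {f : MonV (N + 2) d → K} {rel : ∀ u, MonV (N + 2) (e u) → K} {M : ℕ}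
    (h : ∀ q : MonV (N + 2) M,
      ∃ c : Cix N d M e → K, monomial q.1 1 = ∑ i, C (c i) * colG f rel M i) : FinG f rel M := by
  intro q
  obtain ⟨c, hc⟩ := h q
  refine ⟨fun s => c (Sum.inl (Sum.inl s)), fun s => c (Sum.inl (Sum.inr s)),
    ∑ s, C (c (Sum.inr (Sum.inl s))) * monomial s.1.1 1,
    fun u => ∑ s, C (c (Sum.inr (Sum.inr ⟨u, s⟩))) * monomial s.1.1 1, deg_sum _,
    fun u => deg_sum _, ?_⟩
  rw [hc, Fintype.sum_sum_type, Fintype.sum_sum_type, Fintype.sum_sum_type, Fintype.sum_sigma]
  congr 1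
  · congr 1
    · rw [pol_eq_sum, Finset.sum_mul]
      refine Finset.sum_congr rfl fun s _ => ?_
      rw [mul_assoc]
      rfl
    · exact pol_eq_sum _
  · congr 1
    · rw [Finset.sum_mul]
      refine Finset.sum_congr rfl fun s _ => ?_
      rw [mul_assoc]
      rfl
    · refine Finset.sum_congr rfl fun u _ => ?_
      rw [Finset.sum_mul]
      refine Finset.sum_congr rfl fun s _ => ?_
      rw [mul_assoc]
      rfl

/-- base change -/
theorem FinG.map {L : Type v} [Field L] (ι : K →+* L) {f : MonV (N + 2) d → K}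
    {rel : ∀ u, MonV (N + 2) (e u) → K} {M : ℕ} (h : FinG f rel M) :
    FinG (fun q => ι (f q)) (fun u q => ι (rel u q)) M := by
  refine finG_of_coords fun q => ?_
  obtain ⟨c, hc⟩ := h.exists_coords q
  refine ⟨fun i => ι (c i), ?_⟩
  have h1 := congrArg (MvPolynomial.map ι) hc
  rw [map_monomial, map_one, map_sum] at h1
  rw [h1]
  refine Finset.sum_congr rfl fun i _ => ?_
  rw [map_mul, map_C, map_colG]

/-- descent of a nonzero polynomial -/
theorem exists_restrict {F : Type u} {k : Type v} [Field F] [Field k] [Algebra F k] {I : Type w}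
    {Ψ : MvPolynomial I k} (hΨ : Ψ ≠ 0) :
    ∃ Φ : MvPolynomial I F, Φ ≠ 0 ∧ ∀ a : I → F, eval a Φ ≠ 0 →
      eval (fun i => algebraMap F k (a i)) Ψ ≠ 0 := by
  classical
  obtain ⟨n, hn⟩ := MvPolynomial.ne_zero_iff.mp hΨ
  obtain ⟨φ, hφ⟩ : ∃ φ : k →ₗ[F] F, φ (coeff n Ψ) ≠ 0 := by
    by_contra hcon
    push Not at hcon
    exact hn ((Module.forall_dual_apply_eq_zero_iff F (coeff n Ψ)).mp hcon)
  let Φ : MvPolynomial I F := ∑ m ∈ Ψ.support, monomial m (φ (coeff m Ψ))
  have hΦ : Φ ≠ 0 := by
    intro h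
    apply hφ
    have h1 : coeff n Φ = φ (coeff n Ψ) := by
      simp only [Φ, coeff_sum, coeff_monomial]
      rw [Finset.sum_eq_single n]
      · rw [if_pos rfl]
      · intro b _ hb
        rw [if_neg hb]
      · intro h
        exact absurd (mem_support_iff.mpr hn) h
    rw [← h1, h, coeff_zero]
  refine ⟨Φ, hΦ, fun a ha h => ha ?_⟩
  have h1 : φ (eval (fun i => algebraMap F k (a i)) Ψ) = eval a Φ := by
    simp only [Φ]
    rw [eval_eq, map_sum, map_sum]
    refine Finset.sum_congr rfl fun m _ => ?_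
    rw [eval_monomial, Finsupp.prod]
    have h2 : (coeff m Ψ * ∏ i ∈ m.support, (algebraMap F k (a i)) ^ m i) =
        (∏ i ∈ m.support, (a i) ^ m i) • coeff m Ψ := by
      rw [Algebra.smul_def, map_prod, mul_comm]
      congr 1
      refine Finset.prod_congr rfl fun i _ => ?_
      rw [map_pow]
    rw [h2, map_smul, smul_eq_mul, mul_comm]
  rw [← h1, h, map_zero]

/-- **Finiteness over the line is an open condition.** -/
theorem exists_pol_finG {F : Type v} [Field F] [Algebra F K] {I : Type w}
    {f : MonV (N + 2) d → MvPolynomial I K} {rel : ∀ u, MonV (N + 2) (e u) → MvPolynomial I K}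
    {M : ℕ} (hM : 1 ≤ M) {a₀ : I → K}
    (h0 : FinG (fun q => eval a₀ (f q)) (fun u q => eval a₀ (rel u q)) M) :
    ∃ Ψ : MvPolynomial I F, Ψ ≠ 0 ∧ ∀ a : I → F, eval a Ψ ≠ 0 →
      FinG (fun q => eval (fun i => algebraMap F K (a i)) (f q))
        (fun u q => eval (fun i => algebraMap F K (a i)) (rel u q)) M := by
  classical
  -- the vectors
  let vec : (g : MonV (N + 2) d → K) → (∀ u, MonV (N + 2) (e u) → K) →
      Cix N d M e → MonV (N + 2) M → K := fun g r i q => coeff q.1 (colG g r M i)
  have hsing : ∀ q : MonV (N + 2) M, pol (Pi.single q (1 : K)) = monomial q.1 1 := by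
    intro q
    have h1 : (Pi.single q (1 : K) : MonV (N + 2) M → K) = fun s => coeff s.1 (monomial q.1 1) := by
      funext s
      rw [coeff_monomial]
      by_cases hs : s = q
      · rw [hs, Pi.single_eq_same, if_pos rfl]
      · rw [Pi.single_eq_of_ne hs, if_neg fun h => hs (Subtype.ext h.symm)]
    rw [h1, pol_coeff (totalDegree_monomial_le' q.2 1)]
  have hpolsum : ∀ (T : Type) [Fintype T] (c : T → K) (v : T → MonV (N + 2) M → K),
      pol (∑ i, c i • v i) = ∑ i, C (c i) * pol (v i) := by
    intro T _ c v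
    unfold pol
    simp only [Finset.sum_apply, Pi.smul_apply, smul_eq_mul, map_sum]
    rw [Finset.sum_comm]
    refine Finset.sum_congr rfl fun i _ => ?_
    rw [Finset.mul_sum]
    refine Finset.sum_congr rfl fun s _ => ?_
    rw [C_mul_monomial]
  have hspan : ∀ q : MonV (N + 2) M, ∃ c : Cix N d M e → K, Pi.single q 1 =
      ∑ i, c i • vec (fun q => eval a₀ (f q)) (fun u q => eval a₀ (rel u q)) i := by
    intro q
    obtain ⟨c, hc⟩ := h0.exists_coords q
    refine ⟨c, pol_injective ?_⟩
    rw [hsing, hc, hpolsum]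
    refine Finset.sum_congr rfl fun i _ => ?_
    rw [pol_coeff (totalDegree_colG _ _ hM i)]
  obtain ⟨s, hs⟩ := exists_minor _ hspan
  -- the determinant as a polynomial
  let Δ : MvPolynomial I K := (Matrix.of fun (a : MonV (N + 2) M) (b : MonV (N + 2) M) =>
    coeff a.1 (colG f rel M (s b))).det
  have hev : ∀ a : I → K, eval a Δ = (Matrix.of fun (q : MonV (N + 2) M) (b : MonV (N + 2) M) =>
      vec (fun q => eval a (f q)) (fun u q => eval a (rel u q)) (s b) q).det := by
    intro a
    rw [show eval a Δ = (eval a : MvPolynomial I K →+* K) Δ from rfl, RingHom.map_det]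
    congr 1
    ext q b
    change eval a (coeff q.1 (colG f rel M (s b))) = coeff q.1 (colG _ _ M (s b))
    rw [← map_colG (eval a : MvPolynomial I K →+* K) f rel M (s b), coeff_map]
  have hΔ : Δ ≠ 0 := by
    intro h
    apply hs
    rw [← hev, h, map_zero]
  obtain ⟨Ψ, hΨ, hΨa⟩ := exists_restrict (F := F) hΔ
  refine ⟨Ψ, hΨ, fun a ha => finG_of_coords fun q => ?_⟩
  have h1 := hΨa a ha
  rw [hev] at h1
  obtain ⟨c, hc⟩ := coords_of_minor h1 q
  have h2 := congrArg pol hc
  rw [hsing, hpolsum] at h2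
  refine ⟨fun i => ∑ b ∈ Finset.univ.filter (fun b => s b = i), c b, ?_⟩
  rw [h2]
  have h3 : ∀ i, C (∑ b ∈ Finset.univ.filter (fun b => s b = i), c b) *
      colG (fun q => eval (fun i => algebraMap F K (a i)) (f q))
        (fun u q => eval (fun i => algebraMap F K (a i)) (rel u q)) M i =
      ∑ b ∈ Finset.univ.filter (fun b => s b = i), C (c b) *
        colG (fun q => eval (fun i => algebraMap F K (a i)) (f q))
        (fun u q => eval (fun i => algebraMap F K (a i)) (rel u q)) M (s b) := by
    intro i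
    rw [map_sum, Finset.sum_mul]
    refine Finset.sum_congr rfl fun b hb => ?_
    rw [(Finset.mem_filter.1 hb).2]
  rw [Finset.sum_congr rfl fun i _ => h3 i]
  have h4 : ∑ i, ∑ b ∈ Finset.univ.filter (fun b => s b = i), C (c b) *
        colG (fun q => eval (fun i => algebraMap F K (a i)) (f q))
        (fun u q => eval (fun i => algebraMap F K (a i)) (rel u q)) M (s b) =
      ∑ b, C (c b) * colG (fun q => eval (fun i => algebraMap F K (a i)) (f q))
        (fun u q => eval (fun i => algebraMap F K (a i)) (rel u q)) M (s b) := by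
    convert Finset.sum_fiberwise (Finset.univ : Finset (MonV (N + 2) M)) s (fun b => C (c b) *
        colG (fun q => eval (fun i => algebraMap F K (a i)) (f q))
        (fun u q => eval (fun i => algebraMap F K (a i)) (rel u q)) M (s b)) using 3
  rw [h4]
  refine Finset.sum_congr rfl fun b _ => ?_
  rw [pol_coeff (totalDegree_colG _ _ hM _)]

end fin

end Pool.Agent.BT
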